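import Pool.Agent.Helper55.AR.Defs
import Pool.Agent.Helper23.Pcf.Run

set_option autoImplicit false

open Cardinal Ordinal Set Filter Helper23.Pcf Helper55.CP

universe u

namespace Helper55.AR

/-- D -/
theorem pcf_elem_le {α γ₁ : Ordinal.{u}} (hα : Order.IsSuccLimit α) (hγ : α.card = ℵ_ γ₁)
    (hlt : γ₁ < α) {lam : Cardinal.{u}} (hlam : #(pcf (aSet α)) < Cardinal.lift.{u+1} lam)
    (hlam' : α.card < lam) :
    ∀ l ∈ pcfS (ival (ℵ_ (γ₁ + (6 : ℕ))) (ℵ_ α)), l ≤ ℵ_ lam.ord := by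
  intro l hl
  by_contra hcon
  rw [not_le] at hcon
  have hα0 : ℵ₀ ≤ α.card := by
    rw [Ordinal.aleph0_le_card]
    exact Ordinal.omega0_le_of_isSuccLimit hα
  have hlam0 : ℵ₀ ≤ lam := hα0.trans hlam'.le
  have h7 : ∀ n : ℕ, γ₁ + (n : ℕ) < α := by
    intro n
    induction n with
    | zero => simpa using hlt
    | succ n ih =>
      have := hα.succ_lt ih
      rw [← Ordinal.add_one_eq_succ, add_assoc] at this
      exact_mod_cast this
  set ρ : Ordinal.{u} := γ₁ + (6 : ℕ) with hρ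
  have hρα : ρ < α := h7 6
  have hαl : α < lam.ord := Cardinal.lt_ord.2 hlam'
  have hsub : ival (ℵ_ ρ) (ℵ_ α) ⊆ aSet α := by
    rw [aSet_eq hγ]
    intro k hk
    exact ⟨hk.1, (Cardinal.aleph_le_aleph.2 le_self_add).trans_lt hk.2.1, hk.2.2⟩
  have hk : #(ival (ℵ_ ρ) (ℵ_ α)) ≤ Cardinal.lift.{u+1} (ℵ_ ρ) := by
    refine (Cardinal.mk_le_mk_of_subset hsub).trans ?_
    rw [aSet_eq hγ, mk_ival hα hlt]
    refine Cardinal.lift_le.2 ((Ordinal.card_le_card (Ordinal.sub_le_self _ _)).trans ?_)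
    rw [hγ]
    exact Cardinal.aleph_le_aleph.2 le_self_add
  have hθ : ∀ ξ < lam.ord, ℵ_ (ρ + ξ + 1) ∈ pcfS (ival (ℵ_ ρ) (ℵ_ α)) := by
    intro ξ hξ
    refine nohole rfl hk (Cardinal.aleph0_le_aleph _) hl (isRegular_aleph_add_one _) ?_ ?_
    · refine Cardinal.aleph_lt_aleph.2 ?_
      exact (le_self_add (b := ξ)).trans_lt (lt_add_one _)
    · refine le_trans ?_ hcon.le
      refine Cardinal.aleph_le_aleph.2 ?_
      have h1 : ρ + ξ < lam.ord := (Ordinal.isPrincipal_add_ord hlam0) (hρα.trans hαl) hξ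
      exact Order.add_one_le_of_lt h1
  have hinj : Cardinal.lift.{u+1} lam ≤ #(pcf (aSet α)) := by
    rw [pcf_aSet]
    have h1 : #(Set.Iio lam.ord) = Cardinal.lift.{u+1} lam := by
      rw [Cardinal.mk_Iio_ordinal, Cardinal.card_ord]
    rw [← h1]
    refine Cardinal.mk_le_of_injective
      (f := fun ξ : Set.Iio lam.ord => (⟨ℵ_ (ρ + ξ.1 + 1), pcfS_mono hsub (hθ ξ.1 ξ.2)⟩ :
        pcfS (aSet α))) ?_
    intro x y hxy
    have h2 : ℵ_ (ρ + x.1 + 1) = ℵ_ (ρ + y.1 + 1) := congrArg Subtype.val hxy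
    have h3 : ρ + x.1 + 1 = ρ + y.1 + 1 := le_antisymm (Cardinal.aleph_le_aleph.1 h2.le)
      (Cardinal.aleph_le_aleph.1 h2.ge)
    have h4 : ρ + x.1 = ρ + y.1 := by
      rw [Ordinal.add_one_eq_succ, Ordinal.add_one_eq_succ] at h3
      exact Order.succ_injective h3
    exact Subtype.ext ((add_right_inj _).1 h4)
  exact absurd hlam (not_lt.2 hinj)

end Helper55.AR
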